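import Mathlib
import Pool.Agent.Lib.MP_cad252_al.H89.Span
import Pool.Agent.Lib.MP_cad252_al.Pow

/-!
# Characteristic three: the variety generated by `J(A)` is finitely based

For every Malcev algebra `A` over a field `K` of characteristic three the ideal `J(A)` is a Lie
algebra in which all products of four elements vanish; in particular the identities of `J(A)` are
the consequences of finitely many of them.  This applies to the free Malcev algebra on a countably
infinite set.
-/

namespace Pool.Agent.Results.MP_cad252_al.CharThree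

open Pool.Agent.Lib.MP_cad252_al.H89

universe u v

/-- `A` is a Malcev ring with `3 A = 0`. -/
theorem isMal3 (K : Type u) [Field K] [CharP K 3] (A : Type v) [NonUnitalNonAssocRing A]
    [Module K A] (hA : IsMalcev A) : Pool.Agent.Malc3.IsMal3 A where
  sq := hA.sq
  mal := hA.malcev
  three := by
    intro a
    have h : ((3 : ℕ) : K) = 0 := CharP.cast_eq_zero K 3
    have h2 : ((3 : ℕ) : K) • a = 0 := by rw [h, zero_smul]
    rw [Nat.cast_smul_eq_nsmul] at h2
    rw [← h2]
    abel

/-- The additive span of the Jacobians is closed under scalars. -/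
theorem smul_mem_PP (K : Type u) [Field K] (A : Type v) [NonUnitalNonAssocRing A]
    [Module K A] [IsScalarTower K A A] [SMulCommClass K A A] (c : K) {x : A}
    (hx : x ∈ Pool.Agent.Malc3.PP A) : c • x ∈ Pool.Agent.Malc3.PP A := by
  refine Pool.Agent.Malc3.PP_induction
    (p := fun x => c • x ∈ Pool.Agent.Malc3.PP A) ?_ ?_ ?_ ?_ hx
  · intro x y z
    have e : c • Pool.Agent.Malc3.Jac x y z = Pool.Agent.Malc3.Jac (c • x) y z := by
      unfold Pool.Agent.Malc3.Jac
      simp only [smul_add, smul_mul_assoc, mul_smul_comm]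
    change c • Pool.Agent.Malc3.Jac x y z ∈ Pool.Agent.Malc3.PP A
    rw [e]
    exact Pool.Agent.Malc3.jac_mem _ _ _
  · rw [smul_zero]
    exact AddSubgroup.zero_mem _
  · intro x y hx hy
    rw [smul_add]
    exact AddSubgroup.add_mem _ hx hy
  · intro x hx
    rw [smul_neg]
    exact AddSubgroup.neg_mem _ hx

theorem mem_PP (K : Type u) [Field K] [CharP K 3] (A : Type v) [NonUnitalNonAssocRing A]
    [Module K A] [IsScalarTower K A A] [SMulCommClass K A A] (hA : IsMalcev A) {x : A}
    (hx : x ∈ jacobianIdeal K A) : x ∈ Pool.Agent.Malc3.PP A := by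
  have hx' : x ∈ jacobianSubspace K A := (mem_jacobianIdeal K A).1 hx
  clear hx
  rw [jacobianSubspace_eq_span K A hA] at hx'
  induction hx' using Submodule.span_induction with
  | mem x hx =>
    obtain ⟨p, q, r, rfl⟩ := hx
    exact Pool.Agent.Malc3.jac_mem p q r
  | zero => exact AddSubgroup.zero_mem _
  | add x y _ _ hx hy => exact AddSubgroup.add_mem _ hx hy
  | smul c x _ hx => exact smul_mem_PP K A c hx

/-- The statement for one Malcev algebra of characteristic three. -/
theorem main (K : Type u) [Field K] [CharP K 3] (A : Type v) [NonUnitalNonAssocRing A]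
    [Module K A] [IsScalarTower K A A] [SMulCommClass K A A] (hA : IsMalcev A) :
    (∀ t ∈ jacobianIdeal K A, ∀ v ∈ jacobianIdeal K A, ∀ w ∈ jacobianIdeal K A,
      ∀ u ∈ jacobianIdeal K A,
        Jac t v w = 0 ∧ (t * v) * (w * u) = 0 ∧ ((t * v) * w) * u = 0 ∧
          t * (v * (w * u)) = 0) ∧
    FinitelyBased K (jacobianIdeal K A) := by
  have h3 := isMal3 K A hA
  refine ⟨?_, ?_⟩
  · intro t ht v hv w hw u hu
    have ht' := mem_PP K A hA ht
    have hv' := mem_PP K A hA hv
    have hw' := mem_PP K A hA hw
    have hu' := mem_PP K A hA hu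
    exact ⟨Pool.Agent.Malc3.jac_PP h3 ht' hv' hw', Pool.Agent.Malc3.PP_prod1 h3 ht' hv' hw' hu',
      Pool.Agent.Malc3.PP_prod3 h3 ht' hv' hw' hu',
      Pool.Agent.Malc3.PP_prod2 h3 ht' hv' hw' hu'⟩
  · refine finitelyBased_of_jacobians K A hA ?_ ?_
    · intro a b c d e f g h i j k l
      exact Pool.Agent.Malc3.PP_prod3 h3 (Pool.Agent.Malc3.jac_mem _ _ _)
        (Pool.Agent.Malc3.jac_mem _ _ _) (Pool.Agent.Malc3.jac_mem _ _ _)
        (Pool.Agent.Malc3.jac_mem _ _ _)
    · intro a b c d e f g h i j k l
      exact Pool.Agent.Malc3.PP_prod1 h3 (Pool.Agent.Malc3.jac_mem _ _ _)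
        (Pool.Agent.Malc3.jac_mem _ _ _) (Pool.Agent.Malc3.jac_mem _ _ _)
        (Pool.Agent.Malc3.jac_mem _ _ _)

/-- **Characteristic three.**  For every Malcev algebra `A` over a field `K` of characteristic
three, the ideal `J(A)` generated by the Jacobians is a Lie algebra in which every product of four
elements is zero, and its identities have a finite basis.  In particular the variety generated by
`J(A)`, `A` the free Malcev `K`-algebra of countable rank, has a finite basis of identities. -/
theorem result (K : Type u) [Field K] [CharP K 3] :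
    (∀ (A : Type v) [NonUnitalNonAssocRing A] [Module K A] [IsScalarTower K A A]
        [SMulCommClass K A A], IsMalcev A →
      (∀ t ∈ jacobianIdeal K A, ∀ v ∈ jacobianIdeal K A, ∀ w ∈ jacobianIdeal K A,
        ∀ u ∈ jacobianIdeal K A,
          Jac t v w = 0 ∧ (t * v) * (w * u) = 0 ∧ ((t * v) * w) * u = 0 ∧
            t * (v * (w * u)) = 0) ∧
      FinitelyBased K (jacobianIdeal K A)) ∧
    FinitelyBased K (jacobianIdeal K (FreeMalcev K ℕ)) :=
  ⟨fun A _ _ _ _ hA => main K A hA, (main K (FreeMalcev K ℕ) (FreeMalcev.isMalcev K ℕ)).2⟩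

end Pool.Agent.Results.MP_cad252_al.CharThree
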