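import Mathlib
import Pool.Agent.Lib.MP_cad252_al.Z.Fin

/-!
# Characteristic zero: the variety generated by `J(A)` is finitely based

For every Malcev algebra `A` over a field `K` of characteristic zero, every algebra that satisfies
all identities of the ideal `J(A)` generated by the Jacobians has a finite basis of identities.
This applies to `J(A)` itself and to the free Malcev algebra on a countably infinite set.
-/

namespace Pool.Agent.Results.MP_cad252_al.CharZero

open Pool.Agent.Lib.MP_cad252_al.H89

universe u v w

/-- The statement for one Malcev algebra of characteristic zero. -/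
theorem main (K : Type u) [Field K] [CharZero K] (A : Type v) [NonUnitalNonAssocRing A]
    [Module K A] [IsScalarTower K A A] [SMulCommClass K A A] (hA : IsMalcev A)
    (B : Type w) [NonUnitalNonAssocRing B] [Module K B] [IsScalarTower K B B]
    [SMulCommClass K B B]
    (h : ∀ f : FA K, Satisfies K (jacobianIdeal K A) f → Satisfies K B f) :
    FinitelyBased K B := by
  have hJ := Pool.Agent.Lib.MP_cad252_al.Z.isW_jacobianIdeal K hA
  exact Pool.Agent.Lib.MP_cad252_al.Z.finitelyBased_of_isW K B
    (Pool.Agent.Lib.MP_cad252_al.Z.isW_of_satisfies fun f hf => h f (hJ.satisfies f hf))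

/-- **Characteristic zero.**  Let `K` be a field of characteristic zero.  For every Malcev algebra
`A` over `K` the ideal `J(A)` generated by the Jacobians has a finite basis of identities, and so
has every `K`-algebra which satisfies all the identities of `J(A)`.  In particular the variety
generated by `J(A)`, `A` the free Malcev `K`-algebra of countable rank, has a finite basis of
identities. -/
theorem result (K : Type u) [Field K] [CharZero K] :
    (∀ (A : Type v) [NonUnitalNonAssocRing A] [Module K A] [IsScalarTower K A A]
        [SMulCommClass K A A], IsMalcev A →
      FinitelyBased K (jacobianIdeal K A) ∧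
      ∀ (B : Type w) [NonUnitalNonAssocRing B] [Module K B] [IsScalarTower K B B]
        [SMulCommClass K B B],
        (∀ f : FA K, Satisfies K (jacobianIdeal K A) f → Satisfies K B f) →
          FinitelyBased K B) ∧
    FinitelyBased K (jacobianIdeal K (FreeMalcev K ℕ)) :=
  ⟨fun A _ _ _ _ hA => ⟨main K A hA (jacobianIdeal K A) (fun _ hf => hf),
    fun B _ _ _ _ hB => main K A hA B hB⟩,
    main K (FreeMalcev K ℕ) (FreeMalcev.isMalcev K ℕ) (jacobianIdeal K (FreeMalcev K ℕ))
      (fun _ hf => hf)⟩

end Pool.Agent.Results.MP_cad252_al.CharZero
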